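import Mathlib

/-!
# The numerators of `J_α` are not unimodal in type `B₂`

For the root system `B₂` (the Lie algebra `so(5)`) and `α = 2 α₁ + 2 α₂` the polynomial
`(q)_α² J_α` equals `1 + q + 3q² + 2q³ + 5q⁴ + 2q⁵ + 3q⁶ + q⁷ + q⁸`.
-/

namespace Pool.Agent.Results.MP_4223bd_al.TypeBTwo

open Polynomial

/-- The invariant form on the root lattice: `A` is the Cartan matrix,
`A i j = 2 (α_i, α_j) / (α_j, α_j)`, and `d j = (α_j, α_j) / 2`. -/
def form {n : ℕ} (A : Matrix (Fin n) (Fin n) ℤ) (d : Fin n → ℕ) (a b : Fin n → ℕ) : ℤ :=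
  ∑ i, ∑ j, (a i : ℤ) * (b j : ℤ) * (A i j * (d j : ℤ))

/-- `(q)_α = ∏_i ∏_{j = 1}^{a_i} (1 - q ^ (d_i j))`. -/
noncomputable def qPoch {n : ℕ} (d : Fin n → ℕ) (a : Fin n → ℕ) : ℚ[X] :=
  ∏ i, ∏ j ∈ Finset.range (a i), (1 - X ^ (d i * (j + 1)))

/-- The defining recursion of the functions `J_α`, `α ∈ Q^{≥ 0}`. -/
def IsJ {n : ℕ} (A : Matrix (Fin n) (Fin n) ℤ) (d : Fin n → ℕ)
    (J : (Fin n → ℕ) → RatFunc ℚ) : Prop :=
  J 0 = 1 ∧ ∀ a : Fin n → ℕ, J a = ∑ b ∈ Finset.Iic a,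
    (RatFunc.X : RatFunc ℚ) ^ (form A d b b / 2) / algebraMap ℚ[X] (RatFunc ℚ) (qPoch d (a - b)) * J b

/-- Unimodality of the coefficient sequence of a polynomial. -/
def Unimodal (N : ℤ[X]) : Prop :=
  ∃ m ≤ N.natDegree, (∀ i < m, N.coeff i ≤ N.coeff (i + 1)) ∧
    ∀ i, m ≤ i → i < N.natDegree → N.coeff (i + 1) ≤ N.coeff i

theorem form_eq (a b : ℕ) : form (CartanMatrix.B 2) ![2, 1] ![a, b] ![a, b] / 2 =
    2 * (a : ℤ) ^ 2 - 2 * a * b + (b : ℤ) ^ 2 := by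
  have : form (CartanMatrix.B 2) ![2, 1] ![a, b] ![a, b] =
      2 * (2 * (a : ℤ) ^ 2 - 2 * a * b + (b : ℤ) ^ 2) := by
    simp [form, Fin.sum_univ_two, CartanMatrix.B]
    ring
  rw [this, Int.mul_ediv_cancel_left _ (by norm_num)]

theorem form_pos {a : Fin 2 → ℕ} (ha : a ≠ 0) : 0 < form (CartanMatrix.B 2) ![2, 1] a a / 2 := by
  have e : a = ![a 0, a 1] := by ext i; fin_cases i <;> rfl
  rw [e, form_eq]
  have h : 2 * (a 0 : ℤ) ^ 2 - 2 * a 0 * a 1 + (a 1 : ℤ) ^ 2 = (a 0 : ℤ) ^ 2 + ((a 0 : ℤ) - a 1) ^ 2 := by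
    ring
  rw [h]
  by_contra hn
  push Not at hn
  have h1 : (a 0 : ℤ) ^ 2 = 0 := by nlinarith [sq_nonneg (a 0 : ℤ), sq_nonneg ((a 0 : ℤ) - a 1)]
  have h2 : ((a 0 : ℤ) - a 1) ^ 2 = 0 := by nlinarith [sq_nonneg (a 0 : ℤ), sq_nonneg ((a 0 : ℤ) - a 1)]
  have h3 : (a 0 : ℤ) = 0 := by simpa using h1
  have h4 : ((a 0 : ℤ) - a 1) = 0 := by simpa using h2
  apply ha
  rw [e]
  ext i
  fin_cases i
  · simp only [Pi.zero_apply]; simpa using h3
  · simp only [Pi.zero_apply]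
    have : (a 1 : ℤ) = 0 := by linarith
    simpa using this

theorem X_pow_ne_one {k : ℕ} (hk : 0 < k) : (1 : RatFunc ℚ) - RatFunc.X ^ k ≠ 0 := by
  intro h
  have h1 : (algebraMap ℚ[X] (RatFunc ℚ)) (1 - X ^ k) = 0 := by
    rw [map_sub, map_one, map_pow, RatFunc.algebraMap_X, h]
  have h2 : (1 - X ^ k : ℚ[X]) = 0 := by
    apply RatFunc.algebraMap_injective ℚ
    rw [h1, map_zero]
  have h3 := congrArg (fun P : ℚ[X] => P.eval 0) h2
  simp [hk.ne'] at h3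

theorem one_sub_ne {a : Fin 2 → ℕ} (ha : a ≠ 0) :
    (1 : RatFunc ℚ) - RatFunc.X ^ (form (CartanMatrix.B 2) ![2, 1] a a / 2) ≠ 0 := by
  have h := form_pos ha
  obtain ⟨k, hk⟩ : ∃ k : ℕ, form (CartanMatrix.B 2) ![2, 1] a a / 2 = k :=
    ⟨(form (CartanMatrix.B 2) ![2, 1] a a / 2).toNat, (Int.toNat_of_nonneg h.le).symm⟩
  rw [hk, zpow_natCast]
  exact X_pow_ne_one (by omega)

theorem qPoch_zero {n : ℕ} (d : Fin n → ℕ) : qPoch d 0 = 1 := by simp [qPoch]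

theorem form_zero : form (CartanMatrix.B 2) ![2, 1] 0 0 / 2 = 0 := by simp [form]

/-- the functions `J_α` -/
noncomputable def JJ : (Fin 2 → ℕ) → RatFunc ℚ :=
  WellFounded.fix (wellFounded_lt) (fun a rec => by
    classical
    exact if a = 0 then 1 else
      (∑ b ∈ (Finset.Iio a).attach, (RatFunc.X : RatFunc ℚ) ^ (form (CartanMatrix.B 2) ![2, 1] b.1 b.1 / 2) /
        algebraMap ℚ[X] (RatFunc ℚ) (qPoch ![2, 1] (a - b.1)) * rec b.1 (Finset.mem_Iio.1 b.2)) /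
        (1 - RatFunc.X ^ (form (CartanMatrix.B 2) ![2, 1] a a / 2)))

theorem sum_Iic_eq (a : Fin 2 → ℕ) (f : (Fin 2 → ℕ) → RatFunc ℚ) :
    ∑ b ∈ Finset.Iic a, f b = f a + ∑ b ∈ Finset.Iio a, f b := by
  rw [← Finset.Iio_insert, Finset.sum_insert (by simp)]

theorem JJ_isJ : IsJ (CartanMatrix.B 2) ![2, 1] JJ := by
  have h0 : JJ 0 = 1 := by
    rw [JJ, WellFounded.fix_eq]
    simp
  refine ⟨h0, fun a => ?_⟩
  by_cases ha : a = 0
  · subst ha
    have e : Finset.Iio (0 : Fin 2 → ℕ) = ∅ := by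
      ext b
      simp only [Finset.mem_Iio, Finset.notMem_empty, iff_false]
      intro h
      exact absurd h (not_lt_of_ge (fun i => Nat.zero_le _))
    rw [sum_Iic_eq, e, form_zero]
    simp [qPoch_zero]
  · have h1 : JJ a = (∑ b ∈ Finset.Iio a, (RatFunc.X : RatFunc ℚ) ^ (form (CartanMatrix.B 2) ![2, 1] b b / 2) /
        algebraMap ℚ[X] (RatFunc ℚ) (qPoch ![2, 1] (a - b)) * JJ b) /
        (1 - RatFunc.X ^ (form (CartanMatrix.B 2) ![2, 1] a a / 2)) := by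
      conv_lhs => rw [JJ, WellFounded.fix_eq]
      rw [if_neg ha]
      congr 1
      rw [← Finset.sum_attach (Finset.Iio a)]
      rfl
    have h2 := one_sub_ne ha
    rw [sum_Iic_eq]
    rw [eq_div_iff h2] at h1
    rw [← h1, tsub_self, qPoch_zero]
    simp only [map_one, div_one]
    ring

theorem unique {J J' : (Fin 2 → ℕ) → RatFunc ℚ} (h : IsJ (CartanMatrix.B 2) ![2, 1] J)
    (h' : IsJ (CartanMatrix.B 2) ![2, 1] J') : J = J' := by
  funext a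
  induction a using WellFoundedLT.induction with
  | ind a ih =>
    by_cases ha : a = 0
    · rw [ha, h.1, h'.1]
    · have e1 := h.2 a
      have e2 := h'.2 a
      rw [sum_Iic_eq, tsub_self, qPoch_zero] at e1 e2
      have e3 : ∑ b ∈ Finset.Iio a, (RatFunc.X : RatFunc ℚ) ^ (form (CartanMatrix.B 2) ![2, 1] b b / 2) /
          algebraMap ℚ[X] (RatFunc ℚ) (qPoch ![2, 1] (a - b)) * J b =
          ∑ b ∈ Finset.Iio a, (RatFunc.X : RatFunc ℚ) ^ (form (CartanMatrix.B 2) ![2, 1] b b / 2) /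
          algebraMap ℚ[X] (RatFunc ℚ) (qPoch ![2, 1] (a - b)) * J' b := by
        refine Finset.sum_congr rfl fun b hb => ?_
        rw [ih b (Finset.mem_Iio.1 hb)]
      rw [e3] at e1
      simp only [map_one, div_one] at e1 e2
      have h2 := one_sub_ne ha
      apply mul_left_cancel₀ h2
      linear_combination e1 - e2

theorem sum_Iic (a b : ℕ) (f : (Fin 2 → ℕ) → RatFunc ℚ) :
    ∑ c ∈ Finset.Iic (![a, b] : Fin 2 → ℕ), f c =
      ∑ i ∈ Finset.range (a + 1), ∑ j ∈ Finset.range (b + 1), f ![i, j] := by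
  rw [← Finset.sum_product']
  refine Finset.sum_bij' (fun c _ => (c 0, c 1)) (fun p _ => ![p.1, p.2]) ?_ ?_ ?_ ?_ ?_
  · intro c hc
    rw [Finset.mem_Iic] at hc
    simp only [Finset.mem_product, Finset.mem_range]
    have h0 := hc 0
    have h1 := hc 1
    simp at h0 h1
    omega
  · intro p hp
    simp only [Finset.mem_product, Finset.mem_range] at hp
    rw [Finset.mem_Iic]
    intro i
    fin_cases i
    · simp; omega
    · simp; omega
  · intro c _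
    ext i
    fin_cases i <;> rfl
  · intro p _
    rfl
  · intro c _
    congr 1
    ext i
    fin_cases i <;> rfl

theorem rec' {J : (Fin 2 → ℕ) → RatFunc ℚ} (h : IsJ (CartanMatrix.B 2) ![2, 1] J) (a b : ℕ) :
    J ![a, b] = ∑ i ∈ Finset.range (a + 1), ∑ j ∈ Finset.range (b + 1),
      (RatFunc.X : RatFunc ℚ) ^ (2 * (i : ℤ) ^ 2 - 2 * i * j + (j : ℤ) ^ 2) /
        algebraMap ℚ[X] (RatFunc ℚ) (qPoch ![2, 1] ![a - i, b - j]) * J ![i, j] := by
  have h1 := h.2 ![a, b]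
  rw [sum_Iic] at h1
  rw [h1]
  refine Finset.sum_congr rfl fun i _ => ?_
  refine Finset.sum_congr rfl fun j _ => ?_
  rw [form_eq]
  have : (![a, b] - ![i, j] : Fin 2 → ℕ) = ![a - i, b - j] := by
    ext k; fin_cases k <;> rfl
  rw [this]

theorem qP (a b : ℕ) : algebraMap ℚ[X] (RatFunc ℚ) (qPoch ![2, 1] ![a, b]) =
    (∏ j ∈ Finset.range a, (1 - (RatFunc.X : RatFunc ℚ) ^ (2 * (j + 1)))) *
    ∏ j ∈ Finset.range b, (1 - (RatFunc.X : RatFunc ℚ) ^ (j + 1)) := by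
  simp [qPoch, Fin.prod_univ_two]

/-- the numerator -/
noncomputable def NN : ℤ[X] :=
  1 + X + 3 * X ^ 2 + 2 * X ^ 3 + 5 * X ^ 4 + 2 * X ^ 5 + 3 * X ^ 6 + X ^ 7 + X ^ 8

theorem NN_coeff : NN.coeff 2 = 3 ∧ NN.coeff 3 = 2 ∧ NN.coeff 4 = 5 := by
  have c : ∀ k, NN.coeff k = (C 1 + C 1 * X ^ 1 + C 3 * X ^ 2 + C 2 * X ^ 3 + C 5 * X ^ 4 + C 2 * X ^ 5 +
      C 3 * X ^ 6 + C 1 * X ^ 7 + C 1 * X ^ 8 : ℤ[X]).coeff k := by
    intro k
    congr 1
    simp only [NN, map_one, one_mul, pow_one]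
    simp
  refine ⟨?_, ?_, ?_⟩ <;> rw [c] <;>
    simp only [coeff_add, coeff_C_mul, coeff_X_pow, coeff_C] <;> norm_num

theorem NN_not_unimodal : ¬ Unimodal NN := by
  rintro ⟨m, hm, h1, h2⟩
  obtain ⟨c2, c3, c4⟩ := NN_coeff
  have hdeg : 4 ≤ NN.natDegree := le_natDegree_of_ne_zero (by rw [c4]; norm_num)
  rcases Nat.lt_or_ge 2 m with h | h
  · have := h1 2 h
    rw [c2, c3] at this
    norm_num at this
  · have := h2 3 (by omega) (by omega)
    rw [c3, c4] at this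
    norm_num at this

theorem solve {K : Type*} [Field K] {x s c : K} (hc : 1 - c ≠ 0) (h : x = s + c * x) :
    x = s / (1 - c) := by
  rw [eq_div_iff hc]
  linear_combination h

theorem solve2 {K : Type*} [Field K] {x s t c : K} (hc : 1 - c ≠ 0) (h : x = s + (t + c * x)) :
    x = (s + t) / (1 - c) := by
  rw [eq_div_iff hc]
  linear_combination h

section Values

variable {J : (Fin 2 → ℕ) → RatFunc ℚ}

theorem v00 (h : IsJ (CartanMatrix.B 2) ![2, 1] J) : J ![0, 0] = 1 := by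
  have : (![0, 0] : Fin 2 → ℕ) = 0 := by ext i; fin_cases i <;> rfl
  rw [this, h.1]

theorem v01 (h : IsJ (CartanMatrix.B 2) ![2, 1] J) : J ![0, 1] = 1 / (1 - RatFunc.X) ^ 2 := by
  have r := rec' h 0 1
  have h1 := X_pow_ne_one (k := 1) (by norm_num)
  simp [Finset.sum_range_succ, qP, v00 h] at r
  rw [solve (by simpa using h1) r]
  rw [pow_one] at h1
  field_simp

theorem v10 (h : IsJ (CartanMatrix.B 2) ![2, 1] J) : J ![1, 0] = 1 / (1 - RatFunc.X ^ 2) ^ 2 := by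
  have r := rec' h 1 0
  have h1 := X_pow_ne_one (k := 2) (by norm_num)
  simp [Finset.sum_range_succ, qP, v00 h] at r
  rw [solve h1 r]
  field_simp

theorem v11 (h : IsJ (CartanMatrix.B 2) ![2, 1] J) : J ![1, 1] =
    (1 + RatFunc.X + RatFunc.X ^ 2) / ((1 - RatFunc.X ^ 2) ^ 2 * (1 - RatFunc.X) ^ 2) := by
  have r := rec' h 1 1
  have h1 := X_pow_ne_one (k := 1) (by norm_num)
  have h2 := X_pow_ne_one (k := 2) (by norm_num)
  norm_num [Finset.sum_range_succ, qP, Finset.prod_range_succ, v00 h, v01 h, v10 h] at r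
  have h4 := X_pow_ne_one (k := 4) (by norm_num)
  have h5 := X_pow_ne_one (k := 5) (by norm_num)
  have h8 := X_pow_ne_one (k := 8) (by norm_num)
  rw [pow_one] at h1
  generalize J ![1, 1] = y at r ⊢
  generalize (RatFunc.X : RatFunc ℚ) = x at r h1 h2 h4 h5 h8 ⊢
  rw [solve2 h1 r]
  field_simp
  ring

theorem v02 (h : IsJ (CartanMatrix.B 2) ![2, 1] J) : J ![0, 2] =
    (1) / ((1 - RatFunc.X) ^ 2 * (1 - RatFunc.X ^ 2) ^ 2) := by
  have r := rec' h 0 2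
  have h1 := X_pow_ne_one (k := 1) (by norm_num)
  have h2 := X_pow_ne_one (k := 2) (by norm_num)
  norm_num [Finset.sum_range_succ, qP, Finset.prod_range_succ, v00 h, v01 h, v10 h, v11 h] at r
  have h4 := X_pow_ne_one (k := 4) (by norm_num)
  have h5 := X_pow_ne_one (k := 5) (by norm_num)
  have h8 := X_pow_ne_one (k := 8) (by norm_num)
  rw [pow_one] at h1
  generalize J ![0, 2] = y at r ⊢
  generalize (RatFunc.X : RatFunc ℚ) = x at r h1 h2 h4 h5 h8 ⊢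
  rw [solve h4 r]
  field_simp
  ring

theorem v20 (h : IsJ (CartanMatrix.B 2) ![2, 1] J) : J ![2, 0] =
    (1) / ((1 - RatFunc.X ^ 2) ^ 2 * (1 - RatFunc.X ^ 4) ^ 2) := by
  have r := rec' h 2 0
  have h1 := X_pow_ne_one (k := 1) (by norm_num)
  have h2 := X_pow_ne_one (k := 2) (by norm_num)
  norm_num [Finset.sum_range_succ, qP, Finset.prod_range_succ, v00 h, v01 h, v10 h, v11 h, v02 h] at r
  have h4 := X_pow_ne_one (k := 4) (by norm_num)
  have h5 := X_pow_ne_one (k := 5) (by norm_num)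
  have h8 := X_pow_ne_one (k := 8) (by norm_num)
  rw [pow_one] at h1
  generalize J ![2, 0] = y at r ⊢
  generalize (RatFunc.X : RatFunc ℚ) = x at r h1 h2 h4 h5 h8 ⊢
  rw [solve h8 r]
  field_simp
  ring

theorem v21 (h : IsJ (CartanMatrix.B 2) ![2, 1] J) : J ![2, 1] =
    (1 + RatFunc.X + RatFunc.X ^ 2 + RatFunc.X ^ 3 + RatFunc.X ^ 4) / ((1 - RatFunc.X ^ 2) ^ 2 * (1 - RatFunc.X ^ 4) ^ 2 * (1 - RatFunc.X) ^ 2) := by
  have r := rec' h 2 1
  have h1 := X_pow_ne_one (k := 1) (by norm_num)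
  have h2 := X_pow_ne_one (k := 2) (by norm_num)
  norm_num [Finset.sum_range_succ, qP, Finset.prod_range_succ, v00 h, v01 h, v10 h, v11 h, v02 h, v20 h] at r
  have h4 := X_pow_ne_one (k := 4) (by norm_num)
  have h5 := X_pow_ne_one (k := 5) (by norm_num)
  have h8 := X_pow_ne_one (k := 8) (by norm_num)
  rw [pow_one] at h1
  generalize J ![2, 1] = y at r ⊢
  generalize (RatFunc.X : RatFunc ℚ) = x at r h1 h2 h4 h5 h8 ⊢
  rw [solve2 h5 r]
  field_simp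
  ring

theorem v12 (h : IsJ (CartanMatrix.B 2) ![2, 1] J) : J ![1, 2] =
    (1 + RatFunc.X + 3 * RatFunc.X ^ 2 + RatFunc.X ^ 3 + RatFunc.X ^ 4) / ((1 - RatFunc.X ^ 2) ^ 2 * (1 - RatFunc.X) ^ 2 * (1 - RatFunc.X ^ 2) ^ 2) := by
  have r := rec' h 1 2
  have h1 := X_pow_ne_one (k := 1) (by norm_num)
  have h2 := X_pow_ne_one (k := 2) (by norm_num)
  norm_num [Finset.sum_range_succ, qP, Finset.prod_range_succ, v00 h, v01 h, v10 h, v11 h, v02 h, v20 h, v21 h] at r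
  have h4 := X_pow_ne_one (k := 4) (by norm_num)
  have h5 := X_pow_ne_one (k := 5) (by norm_num)
  have h8 := X_pow_ne_one (k := 8) (by norm_num)
  rw [pow_one] at h1
  generalize J ![1, 2] = y at r ⊢
  generalize (RatFunc.X : RatFunc ℚ) = x at r h1 h2 h4 h5 h8 ⊢
  rw [solve2 h2 r]
  field_simp
  ring

theorem v22 (h : IsJ (CartanMatrix.B 2) ![2, 1] J) : J ![2, 2] =
    (1 + RatFunc.X + 3 * RatFunc.X ^ 2 + 2 * RatFunc.X ^ 3 + 5 * RatFunc.X ^ 4 + 2 * RatFunc.X ^ 5 + 3 * RatFunc.X ^ 6 + RatFunc.X ^ 7 + RatFunc.X ^ 8) / ((1 - RatFunc.X ^ 2) ^ 2 * (1 - RatFunc.X ^ 4) ^ 2 * (1 - RatFunc.X) ^ 2 * (1 - RatFunc.X ^ 2) ^ 2) := by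
  have r := rec' h 2 2
  have h1 := X_pow_ne_one (k := 1) (by norm_num)
  have h2 := X_pow_ne_one (k := 2) (by norm_num)
  norm_num [Finset.sum_range_succ, qP, Finset.prod_range_succ, v00 h, v01 h, v10 h, v11 h, v02 h, v20 h, v21 h, v12 h] at r
  have h4 := X_pow_ne_one (k := 4) (by norm_num)
  have h5 := X_pow_ne_one (k := 5) (by norm_num)
  have h8 := X_pow_ne_one (k := 8) (by norm_num)
  rw [pow_one] at h1
  generalize J ![2, 2] = y at r ⊢
  generalize (RatFunc.X : RatFunc ℚ) = x at r h1 h2 h4 h5 h8 ⊢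
  rw [solve2 h4 r]
  field_simp
  ring

end Values

/-- **The numerators of `J_α` are not always unimodal** (type `B₂`, `α = 2 α₁ + 2 α₂`). The first
clause only makes the invariant form explicit: `(α₁, α₁) = 4`, `(α₁, α₂) = -2`, `(α₂, α₂) = 2`. -/
theorem result : (∀ a b : Fin 2 → ℕ, form (CartanMatrix.B 2) ![2, 1] a b =
      4 * (a 0 : ℤ) * b 0 - 2 * a 0 * b 1 - 2 * a 1 * b 0 + 2 * a 1 * b 1) ∧
    ∃ J : (Fin 2 → ℕ) → RatFunc ℚ,
    IsJ (CartanMatrix.B 2) ![2, 1] J ∧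
    (∀ J' : (Fin 2 → ℕ) → RatFunc ℚ, IsJ (CartanMatrix.B 2) ![2, 1] J' → J' = J) ∧
    ∃ N : ℤ[X],
      algebraMap ℚ[X] (RatFunc ℚ) (N.map (Int.castRingHom ℚ)) =
        algebraMap ℚ[X] (RatFunc ℚ) (qPoch ![2, 1] ![2, 2]) ^ 2 * J ![2, 2] ∧
      N = 1 + X + 3 * X ^ 2 + 2 * X ^ 3 + 5 * X ^ 4 + 2 * X ^ 5 + 3 * X ^ 6 + X ^ 7 + X ^ 8 ∧
      N.coeff 3 < min (N.coeff 2) (N.coeff 4) ∧ ¬ Unimodal N := by
  refine ⟨fun a b => ?_, JJ, JJ_isJ, fun J' h => unique h JJ_isJ, NN, ?_, rfl, ?_, NN_not_unimodal⟩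
  · simp [form, Fin.sum_univ_two, CartanMatrix.B]
    ring
  · rw [v22 JJ_isJ, qP]
    have h1 := X_pow_ne_one (k := 1) (by norm_num)
    have h2 := X_pow_ne_one (k := 2) (by norm_num)
    have h4 := X_pow_ne_one (k := 4) (by norm_num)
    rw [pow_one] at h1
    simp only [NN, Polynomial.map_add, Polynomial.map_mul, Polynomial.map_pow, Polynomial.map_X,
      Polynomial.map_one, Polynomial.map_ofNat, map_add, map_mul, map_pow, map_one, map_ofNat,
      RatFunc.algebraMap_X, Finset.prod_range_succ, Finset.prod_range_zero, one_mul]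
    norm_num
    generalize (RatFunc.X : RatFunc ℚ) = x at h1 h2 h4 ⊢
    field_simp
  · obtain ⟨c2, c3, c4⟩ := NN_coeff
    rw [c2, c3, c4]
    norm_num

end Pool.Agent.Results.MP_4223bd_al.TypeBTwo
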